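import Mathlib

namespace Pool.Agent.Results.MP_69f1cd_co.NoFourCycle

/-- Arcs of the preference graph: the two profiles differ in the strategy of one player, and
that player strictly prefers the head. -/
def Arc {S T : Type} (u₁ u₂ : S × T → ℝ) (p q : S × T) : Prop :=
  (p.1 ≠ q.1 ∧ p.2 = q.2 ∧ u₁ p < u₁ q) ∨ (p.1 = q.1 ∧ p.2 ≠ q.2 ∧ u₂ p < u₂ q)

/-- A strict game: no player is ever indifferent between comparable profiles. -/
def Strict {S T : Type} (u₁ u₂ : S × T → ℝ) : Prop :=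
  (∀ s s' t, s ≠ s' → u₁ (s, t) ≠ u₁ (s', t)) ∧ ∀ s t t', t ≠ t' → u₂ (s, t) ≠ u₂ (s, t')

abbrev P := Fin 4 × Fin 5

def A : Fin 4 → Fin 5 → ℕ := ![![3, 1, 2, 2, 0], ![1, 3, 0, 3, 2], ![0, 2, 3, 0, 1], ![2, 0, 1, 1, 3]]
def B : Fin 4 → Fin 5 → ℕ := ![![2, 0, 4, 3, 1], ![0, 3, 2, 1, 4], ![1, 4, 3, 2, 0], ![4, 2, 1, 0, 3]]
def D1 : Fin 4 → Fin 5 → ℕ := ![![0, 6, 1, 1, 7], ![10, 3, 3, 2, 3], ![9, 3, 2, 9, 8], ![5, 5, 4, 10, 4]]
def D2 : Fin 4 → Fin 5 → ℕ := ![![0, 1, 7, 5, 1], ![1, 4, 3, 4, 3], ![1, 5, 6, 3, 2], ![1, 2, 2, 2, 2]]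

def arc (p q : P) : Prop :=
  (p.1 ≠ q.1 ∧ p.2 = q.2 ∧ A p.1 p.2 < A q.1 q.2) ∨ (p.1 = q.1 ∧ p.2 ≠ q.2 ∧ B p.1 p.2 < B q.1 q.2)

instance : DecidableRel arc := fun p q => by unfold arc; infer_instance

def v₁ (p : P) : ℝ := A p.1 p.2
def v₂ (p : P) : ℝ := B p.1 p.2

lemma arc_iff (p q : P) : Arc v₁ v₂ p q ↔ arc p q := by
  simp [Arc, arc, v₁, v₂]

lemma step1 : ∀ p : P, p = (0, 0) ∨ ∃ q, arc q p ∧ D1 q.1 q.2 < D1 p.1 p.2 := by decide +kernel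
lemma step2 : ∀ p : P, p = (0, 0) ∨ ∃ q, arc p q ∧ D2 q.1 q.2 < D2 p.1 p.2 := by decide +kernel
lemma no4 : ∀ a b : P, arc a b → ∀ c, arc b c → ∀ d, arc c d → ¬ arc d a := by decide +kernel
lemma strictA : ∀ s s' t, s ≠ s' → A s t ≠ A s' t := by decide +kernel
lemma strictB : ∀ s t t', t ≠ t' → B s t ≠ B s t' := by decide +kernel

lemma from_root (k : ℕ) : ∀ p : P, D1 p.1 p.2 < k →
    Relation.ReflTransGen (Arc v₁ v₂) (0, 0) p := by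
  induction k with
  | zero => intro p h; omega
  | succ k ih =>
    intro p h
    rcases step1 p with rfl | ⟨q, h1, h2⟩
    · exact .refl
    · exact (ih q (by omega)).tail ((arc_iff _ _).2 h1)

lemma to_root (k : ℕ) : ∀ p : P, D2 p.1 p.2 < k →
    Relation.ReflTransGen (Arc v₁ v₂) p (0, 0) := by
  induction k with
  | zero => intro p h; omega
  | succ k ih =>
    intro p h
    rcases step2 p with rfl | ⟨q, h1, h2⟩
    · exact .refl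
    · exact .head ((arc_iff _ _).2 h1) (ih q (by omega))

theorem result : ∃ u₁ u₂ : Fin 4 × Fin 5 → ℝ, Strict u₁ u₂ ∧
    (∀ p q, Relation.ReflTransGen (Arc u₁ u₂) p q) ∧
    ¬ ∃ a b c d, Arc u₁ u₂ a b ∧ Arc u₁ u₂ b c ∧ Arc u₁ u₂ c d ∧ Arc u₁ u₂ d a := by
  refine ⟨v₁, v₂, ⟨?_, ?_⟩, fun p q => (to_root _ p (Nat.lt_succ_self _)).trans
    (from_root _ q (Nat.lt_succ_self _)), ?_⟩
  · intro s s' t h
    simpa [v₁] using strictA s s' t h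
  · intro s t t' h
    simpa [v₂] using strictB s t t' h
  · rintro ⟨a, b, c, d, h1, h2, h3, h4⟩
    rw [arc_iff] at h1 h2 h3 h4
    exact no4 a b h1 c h2 d h3 h4

end Pool.Agent.Results.MP_69f1cd_co.NoFourCycle
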